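import Mathlib
import Pool.Agent.W316.Lower
import Pool.Agent.W316.Upper

set_option autoImplicit false

/-!
The move number `M(q)` of the Maker-Breaker clique game on the infinite complete graph:
`M(q) = 2 ^ ((2 / 3 + o(1)) q)`.
-/

namespace Pool.Agent.Results.MP_278060_co.MoveNumber

open Filter Topology Pool.Agent.Helper679.CliqueGame

lemma not_makerWins {q m : ℕ} (h : BreakerPrevents q m) : ¬ MakerWinsWithin q m := by
  rintro ⟨μ, hμ⟩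
  obtain ⟨β, hβ⟩ := h
  exact hμ β (hβ μ)

lemma lt_moveNumber {q m : ℕ} (h : BreakerPrevents q m) : (m : ℕ∞) < moveNumber q := by
  have h1 : ((m + 1 : ℕ) : ℕ∞) ≤ moveNumber q := by
    refine le_iInf fun n => ?_
    have h2 : ¬ (n : ℕ) ≤ m := fun hn =>
      not_makerWins h (Pool.Agent.W316.Mk.makerWins_mono hn n.2)
    exact_mod_cast (by omega : m + 1 ≤ (n : ℕ))
  refine lt_of_lt_of_le ?_ h1
  exact_mod_cast Nat.lt_succ_self m

lemma moveNumber_le {q m : ℕ} (h : MakerWinsWithin q m) : moveNumber q ≤ m :=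
  iInf_le (fun m : {m : ℕ // MakerWinsWithin q m} => ((m : ℕ) : ℕ∞)) ⟨m, h⟩

lemma finite (q : ℕ) : moveNumber q ≠ ⊤ := by
  have h := Pool.Agent.W316.Mk.upper_asym 1 one_pos
  obtain ⟨k, hk, hqk⟩ := (h.and (eventually_ge_atTop q)).exists
  obtain ⟨m, hm⟩ := exists_nat_ge ((2 : ℝ) ^ ((2 / 3 + 1) * (k : ℝ)))
  obtain ⟨μ, hμ⟩ := hk m hm
  have h1 : MakerWinsWithin q m := ⟨μ, fun β hc => hμ β (hc.mono hqk)⟩
  exact ne_top_of_le_ne_top (ENat.coe_ne_top m) (moveNumber_le h1)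

/-- **Main theorem.** The move number of the clique game is finite and
`M(q) = 2 ^ ((2 / 3 + o(1)) q)`: Breaker prevents a `q`-clique during the first
`2 ^ ((2 / 3 - o(1)) q)` moves, and Maker has one within `2 ^ ((2 / 3 + o(1)) q)` moves. -/
theorem result :
    (∀ q : ℕ, moveNumber q ≠ ⊤) ∧
    Tendsto (fun q : ℕ => Real.logb 2 ((moveNumber q).toNat : ℝ) / q) atTop (𝓝 (2 / 3)) ∧
    ∀ ε : ℝ, 0 < ε → ∀ᶠ q : ℕ in atTop,
      BreakerPrevents q ⌊(2 : ℝ) ^ ((2 / 3 - ε) * q)⌋₊ ∧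
      MakerWinsWithin q ⌊(2 : ℝ) ^ ((2 / 3 + ε) * q)⌋₊ := by
  have key : ∀ ε : ℝ, 0 < ε → ∀ᶠ q : ℕ in atTop,
      BreakerPrevents q ⌊(2 : ℝ) ^ ((2 / 3 - ε) * q)⌋₊ ∧
      MakerWinsWithin q ⌊(2 : ℝ) ^ ((2 / 3 + ε) * q)⌋₊ := by
    intro ε hε
    have h3 : ∀ᶠ q : ℕ in atTop, (1 : ℝ) / (ε / 2) ≤ (q : ℝ) :=
      tendsto_natCast_atTop_atTop.eventually (eventually_ge_atTop _)
    filter_upwards [Pool.Agent.W316.MN.lower_asym ε hε,
      Pool.Agent.W316.Mk.upper_asym (ε / 2) (half_pos hε), h3] with q h1 h2 h3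
    refine ⟨h1 _ (Nat.floor_le (by positivity)), h2 _ ?_⟩
    rw [div_le_iff₀ (by positivity)] at h3
    have h4 : (1 : ℝ) ≤ 2 ^ ((2 / 3 + ε / 2) * (q : ℝ)) :=
      Real.one_le_rpow (by norm_num) (by positivity)
    have h5 : (2 : ℝ) * 2 ^ ((2 / 3 + ε / 2) * (q : ℝ)) ≤ 2 ^ ((2 / 3 + ε) * (q : ℝ)) := by
      calc (2 : ℝ) * 2 ^ ((2 / 3 + ε / 2) * (q : ℝ))
          = 2 ^ (1 + (2 / 3 + ε / 2) * (q : ℝ)) := by
            rw [Real.rpow_add (by norm_num), Real.rpow_one]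
        _ ≤ _ := Real.rpow_le_rpow_of_exponent_le (by norm_num) (by linarith)
    have h6 := Nat.lt_floor_add_one ((2 : ℝ) ^ ((2 / 3 + ε) * (q : ℝ)))
    linarith
  refine ⟨finite, ?_, key⟩
  rw [Metric.tendsto_nhds]
  intro ε hε
  filter_upwards [key (ε / 2) (half_pos hε), eventually_ge_atTop 1] with q hq hq1
  obtain ⟨h1, h2⟩ := hq
  have hq0 : (0 : ℝ) < q := by exact_mod_cast hq1
  obtain ⟨M, hM⟩ : ∃ M : ℕ, moveNumber q = M := ⟨_, (ENat.coe_toNat (finite q)).symm⟩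
  have h3 := lt_moveNumber h1
  have h4 := moveNumber_le h2
  rw [hM] at h3 h4 ⊢
  rw [ENat.toNat_coe]
  have h5 : ⌊(2 : ℝ) ^ ((2 / 3 - ε / 2) * (q : ℝ))⌋₊ < M := by exact_mod_cast h3
  have h6 : M ≤ ⌊(2 : ℝ) ^ ((2 / 3 + ε / 2) * (q : ℝ))⌋₊ := by exact_mod_cast h4
  have h7 : (2 : ℝ) ^ ((2 / 3 - ε / 2) * (q : ℝ)) < M := (Nat.floor_lt (by positivity)).1 h5
  have h8 : (M : ℝ) ≤ 2 ^ ((2 / 3 + ε / 2) * (q : ℝ)) := (Nat.le_floor_iff (by positivity)).1 h6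
  have hM0 : (0 : ℝ) < M := lt_of_lt_of_le (by positivity) h7.le
  have h9 : (2 / 3 - ε / 2) * (q : ℝ) ≤ Real.logb 2 M := by
    rw [Real.le_logb_iff_rpow_le (by norm_num) hM0]
    exact h7.le
  have h10 : Real.logb 2 M ≤ (2 / 3 + ε / 2) * (q : ℝ) := by
    rw [Real.logb_le_iff_le_rpow (by norm_num) hM0]
    exact h8
  rw [Real.dist_eq, abs_lt]
  constructor
  · have : 2 / 3 - ε / 2 ≤ Real.logb 2 M / q := by
      rw [le_div_iff₀ hq0]; exact h9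
    linarith
  · have : Real.logb 2 M / q ≤ 2 / 3 + ε / 2 := by
      rw [div_le_iff₀ hq0]; exact h10
    linarith

end Pool.Agent.Results.MP_278060_co.MoveNumber
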